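import Pool.Agent.Run7.h800.RG.Stm

set_option autoImplicit false

/-!
Piece LIM of helper800's project RG (`MP_e3daee_pr`): the density of the compensator.
-/

namespace Run7.h713.RG

open MeasureTheory ProbabilityTheory Set Filter Topology
open scoped ENNReal NNReal
open Run7.h800.RG

/-- a nonnegative martingale bounded in `L²` -/
theorem lim_abs {α : Type} {m0 : MeasurableSpace α} (μ : Measure α) [IsFiniteMeasure μ]
    (G : Filtration ℕ m0) (f : ℕ → α → ℝ) (hm : ∀ n, Measurable[G n] (f n)) (h0 : ∀ n p, 0 ≤ f n p)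
    (hi : ∀ n, Integrable (f n) μ) (C : ℝ) (hC : 0 ≤ C)
    (h2 : ∀ n, ∫⁻ p, ENNReal.ofReal (f n p ^ 2) ∂μ ≤ ENNReal.ofReal C)
    (hs : ∀ (n : ℕ) (B : Set α), MeasurableSet[G n] B → ∫ p in B, f (n + 1) p ∂μ = ∫ p in B, f n p ∂μ) :
    ∃ b : α → ℝ, Measurable[⨆ n, (G n : MeasurableSpace α)] b ∧ (∀ p, 0 ≤ b p) ∧ Integrable b μ ∧
      ∀ (n : ℕ) (B : Set α), MeasurableSet[G n] B → ∫ p in B, b p ∂μ = ∫ p in B, f n p ∂μ := by
  have hmart : Martingale f G μ :=
    martingale_of_setIntegral_eq_succ (fun n => (hm n).stronglyMeasurable) hi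
      (fun i s hs' => (hs i s hs').symm)
  have hUI : UniformIntegrable f 1 μ := by
    refine uniformIntegrable_of le_rfl ENNReal.one_ne_top (fun n => (hi n).aestronglyMeasurable) ?_
    intro ε hε
    obtain ⟨K, hK⟩ : ∃ K : ℝ≥0, (K : ℝ) = (C + 1) / ε := ⟨⟨(C + 1) / ε, by positivity⟩, rfl⟩
    have hK0 : (0 : ℝ) < K := by rw [hK]; positivity
    refine ⟨K, fun n => ?_⟩
    rw [eLpNorm_one_eq_lintegral_enorm]
    have h3 : ∀ p, ‖({x | K ≤ ‖f n x‖₊}.indicator (f n)) p‖ₑ ≤
        ENNReal.ofReal (K⁻¹ : ℝ) * ENNReal.ofReal (f n p ^ 2) := by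
      intro p
      rw [← ENNReal.ofReal_mul (by positivity)]
      by_cases hp : p ∈ {x | K ≤ ‖f n x‖₊}
      · rw [indicator_of_mem hp, Real.enorm_of_nonneg (h0 n p)]
        apply ENNReal.ofReal_le_ofReal
        have h4 : (K : ℝ) ≤ ‖f n p‖ := by exact_mod_cast hp
        rw [Real.norm_of_nonneg (h0 n p)] at h4
        rw [inv_mul_eq_div, le_div_iff₀ hK0, pow_two]
        exact mul_le_mul_of_nonneg_left h4 (h0 n p)
      · rw [indicator_of_notMem hp]
        simp
    calc ∫⁻ p, ‖({x | K ≤ ‖f n x‖₊}.indicator (f n)) p‖ₑ ∂μ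
        ≤ ∫⁻ p, ENNReal.ofReal (K⁻¹ : ℝ) * ENNReal.ofReal (f n p ^ 2) ∂μ := lintegral_mono h3
      _ = ENNReal.ofReal (K⁻¹ : ℝ) * ∫⁻ p, ENNReal.ofReal (f n p ^ 2) ∂μ :=
          lintegral_const_mul' _ _ ENNReal.ofReal_ne_top
      _ ≤ ENNReal.ofReal (K⁻¹ : ℝ) * ENNReal.ofReal C := by gcongr; exact h2 n
      _ = ENNReal.ofReal ((K : ℝ)⁻¹ * C) := by rw [← ENNReal.ofReal_mul (by positivity)]
      _ ≤ ENNReal.ofReal ε := by
          apply ENNReal.ofReal_le_ofReal
          rw [hK, inv_div, div_mul_eq_mul_div, div_le_iff₀ (by positivity)]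
          nlinarith
  obtain ⟨R, hR⟩ := hUI.2.2
  have hlint : Integrable (G.limitProcess f μ) μ :=
    (Filtration.memLp_limitProcess_of_eLpNorm_bdd hUI.1 hR).integrable le_rfl
  have hlim := hmart.submartingale.ae_tendsto_limitProcess_of_uniformIntegrable hUI
  have hnn : ∀ᵐ p ∂μ, 0 ≤ G.limitProcess f μ p := by
    filter_upwards [hlim] with p hp
    exact ge_of_tendsto' hp fun n => h0 n p
  have hbe : (fun p => max (G.limitProcess f μ p) 0) =ᵐ[μ] G.limitProcess f μ := by
    filter_upwards [hnn] with p hp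
    exact max_eq_left hp
  refine ⟨fun p => max (G.limitProcess f μ p) 0, ?_, fun p => le_max_right _ _,
    hlint.congr hbe.symm, fun n B hB => ?_⟩
  · exact (Filtration.stronglyMeasurable_limitProcess (f := f) (ℱ := G) (μ := μ)).measurable.max
      measurable_const
  · have h5 : ∫ p in B, max (G.limitProcess f μ p) 0 ∂μ = ∫ p in B, G.limitProcess f μ p ∂μ :=
      integral_congr_ae (ae_restrict_of_ae hbe)
    rw [h5, ← setIntegral_condExp (G.le n) hlint hB]
    exact integral_congr_ae (ae_restrict_of_ae (hmart.ae_eq_condExp_limitProcess hUI n).symm)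

instance : IsProbabilityMeasure PE := by
  constructor
  unfold PE
  simp [ENNReal.inv_two_add_inv_two]

theorem ix_lt {n : ℕ} (hN : 0 < NN n) {u : ℝ} (hu : u ∈ Ico (0 : ℝ) 1) : ix n u < NN n := by
  unfold ix
  have hN' : (0 : ℝ) < NN n := by exact_mod_cast hN
  rw [Nat.floor_lt (mul_nonneg hu.1 hN'.le)]
  nlinarith [hu.2]

/-- `be` cut off -/
noncomputable def gg (n : ℕ) (q : ℕ × (ℕ → ℝ)) : ℝ := if q.1 < NN n then be n q else 0

theorem t_LIM : S_ARI → S_BAY → S_FIL → S_TWR → S_LIM := by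
  intro hARI hBAY hFIL hTWR Ω₀ mΩ PB W hW
  obtain ⟨C, hC, hB⟩ := hBAY
  have hbay := hB Ω₀ mΩ PB W hW
  obtain ⟨hP1, hP2, _, _, _⟩ := hFIL Ω₀ mΩ PB W hW
  obtain ⟨hT1, hT2⟩ := hTWR Ω₀ mΩ PB W hW
  have hprob : IsProbabilityMeasure PB := hW.prob
  have hNN : ∀ n, 0 < NN n := fun n => lt_of_lt_of_le (by positivity) (hARI.2.2.2.2.2 n)
  let G : Filtration ℕ (inferInstance : MeasurableSpace (ℝ × (Ω₀ × ℝ))) :=
    ⟨Pn W, monotone_nat_of_le_succ hP2, hP1⟩
  have hfin : IsFiniteMeasure (Q PB) := by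
    unfold Q
    infer_instance
  have hgm : ∀ n, Measurable (gg n) := by
    intro n
    refine measurable_from_prod_countable_right fun j => ?_
    unfold gg
    by_cases hj : j < NN n
    · simp only [hj, if_true]
      exact (hbay n j hj).1
    · simp only [hj, if_false]
      exact measurable_const
  have hg0 : ∀ n q, 0 ≤ gg n q := by
    intro n q
    unfold gg
    split_ifs with h
    · exact (hbay n q.1 h).2.1 q.2
    · exact le_rfl
  have hfm : ∀ n, Measurable[Pn W n] (fun p => gg n (Phi W n p)) := fun n =>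
    (hgm n).comp (comap_measurable (Phi W n))
  have hfm' : ∀ n, Measurable (fun p => gg n (Phi W n p)) := fun n => (hfm n).mono (hP1 n) le_rfl
  have hfn0 : ∀ n p, 0 ≤ fn n (Ω₀ := Ω₀) p := by
    intro n p
    unfold fn
    exact mul_nonneg (Nat.cast_nonneg _) (hARI.2.2.1 n _ _).1
  -- the basic identity
  have key : ∀ (n : ℕ) (B : Set (ℝ × (Ω₀ × ℝ))), MeasurableSet[Pn W n] B →
      ∫⁻ p in B, ENNReal.ofReal (gg n (Phi W n p)) ∂(Q PB) =
        ∫⁻ p in B, ENNReal.ofReal (fn n p) ∂(Q PB) := by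
    intro n B hBm
    obtain ⟨D, hD, hDB⟩ := hBm
    have hBm' : MeasurableSet B := hP1 n B ⟨D, hD, hDB⟩
    rw [← lintegral_indicator hBm', ← lintegral_indicator hBm']
    have hm1 : AEMeasurable (B.indicator fun p => ENNReal.ofReal (gg n (Phi W n p))) (Q PB) :=
      ((hfm' n).ennreal_ofReal.indicator hBm').aemeasurable
    have hm2 : AEMeasurable (B.indicator fun p => ENNReal.ofReal (fn n p)) (Q PB) :=
      ((hT1 n).aemeasurable.ennreal_ofReal).indicator hBm'
    unfold Q at hm1 hm2 ⊢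
    rw [lintegral_prod _ hm1, lintegral_prod _ hm2]
    refine setLIntegral_congr_fun measurableSet_Ico fun u hu => ?_
    have hj := ix_lt (hNN n) hu
    have h1 := (hbay n (ix n u) hj).2.2.1 {x | (ix n u, x) ∈ D}
      (measurable_prodMk_left hD)
    have e1 : ∀ ω : Ω₀ × ℝ, (B.indicator fun p => ENNReal.ofReal (gg n (Phi W n p))) (u, ω) =
        ({x | (ix n u, x) ∈ D} : Set (ℕ → ℝ)).indicator (fun x => ENNReal.ofReal (be n (ix n u, x)))
          (fun i => if i < ix n u then dM W n i ω else 0) := by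
      intro ω
      have e2 : (u, ω) ∈ B ↔ (fun i => if i < ix n u then dM W n i ω else 0) ∈
          ({x | (ix n u, x) ∈ D} : Set (ℕ → ℝ)) := by
        rw [← hDB]; rfl
      by_cases h : (u, ω) ∈ B
      · rw [indicator_of_mem h, indicator_of_mem (e2.1 h)]
        unfold gg Phi
        simp only [hj, if_true]
      · rw [indicator_of_notMem h, indicator_of_notMem fun h' => h (e2.2 h')]
    have e3 : ∀ ω : Ω₀ × ℝ, (B.indicator fun p => ENNReal.ofReal (fn n p)) (u, ω) =
        ({x | (ix n u, x) ∈ D} : Set (ℕ → ℝ)).indicator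
          (fun _ => ENNReal.ofReal ((NN n : ℝ) * w n ω.2 (ix n u)))
          (fun i => if i < ix n u then dM W n i ω else 0) := by
      intro ω
      have e2 : (u, ω) ∈ B ↔ (fun i => if i < ix n u then dM W n i ω else 0) ∈
          ({x | (ix n u, x) ∈ D} : Set (ℕ → ℝ)) := by
        rw [← hDB]; rfl
      by_cases h : (u, ω) ∈ B
      · rw [indicator_of_mem h, indicator_of_mem (e2.1 h)]
        rfl
      · rw [indicator_of_notMem h, indicator_of_notMem fun h' => h (e2.2 h')]
    simp only [e1, e3]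
    exact h1.symm
  have hint : ∀ n, Integrable (fun p => gg n (Phi W n p)) (Q PB) := by
    intro n
    refine ⟨(hfm' n).aestronglyMeasurable, ?_⟩
    rw [hasFiniteIntegral_iff_ofReal (Eventually.of_forall fun p => hg0 n _)]
    have h1 := key n univ MeasurableSet.univ
    rw [setLIntegral_univ, setLIntegral_univ] at h1
    rw [h1, ← hasFiniteIntegral_iff_ofReal (Eventually.of_forall fun p => hfn0 n p)]
    exact (hT1 n).2
  have keyI : ∀ (n : ℕ) (B : Set (ℝ × (Ω₀ × ℝ))), MeasurableSet[Pn W n] B →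
      ∫ p in B, gg n (Phi W n p) ∂(Q PB) = ∫ p in B, fn n p ∂(Q PB) := by
    intro n B hBm
    rw [integral_eq_lintegral_of_nonneg_ae (Eventually.of_forall fun p => hg0 n _)
      (hint n).integrableOn.aestronglyMeasurable,
      integral_eq_lintegral_of_nonneg_ae (Eventually.of_forall fun p => hfn0 n p)
      (hT1 n).integrableOn.aestronglyMeasurable, key n B hBm]
  have hL2 : ∀ n, ∫⁻ p, ENNReal.ofReal (gg n (Phi W n p) ^ 2) ∂(Q PB) ≤ ENNReal.ofReal C := by
    intro n
    have hm1 : AEMeasurable (fun p => ENNReal.ofReal (gg n (Phi W n p) ^ 2)) (Q PB) :=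
      ((hfm' n).pow_const 2).ennreal_ofReal.aemeasurable
    unfold Q at hm1 ⊢
    rw [lintegral_prod _ hm1]
    calc ∫⁻ u in Ico (0 : ℝ) 1, ∫⁻ ω, ENNReal.ofReal (gg n (Phi W n (u, ω)) ^ 2) ∂(PB.prod PE)
        ≤ ∫⁻ _u in Ico (0 : ℝ) 1, ENNReal.ofReal C := by
          refine setLIntegral_mono' measurableSet_Ico fun u hu => ?_
          have hj := ix_lt (hNN n) hu
          have h1 := (hbay n (ix n u) hj).2.2.2
          refine le_trans (le_of_eq ?_) h1
          refine lintegral_congr fun ω => ?_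
          unfold gg Phi
          simp only [hj, if_true]
      _ = ENNReal.ofReal C := by
          rw [setLIntegral_const]
          simp
  obtain ⟨b, hb1, hb2, hb3, hb4⟩ := lim_abs (Q PB) G (fun n p => gg n (Phi W n p)) hfm
    (fun n p => hg0 n _) hint C hC hL2 (fun n B hBm => by
      rw [keyI n B hBm, keyI (n + 1) B (hP2 n B hBm)]
      exact hT2 n B hBm)
  exact ⟨b, hb1, hb2, hb3, fun n B hBm => by rw [hb4 n B hBm]; exact keyI n B hBm⟩

end Run7.h713.RG
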