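import Pool.Agent.Run7.h800.RG.Stm2

set_option autoImplicit false

/-!
Piece OST of helper800's project RG (`MP_e3daee_pr`): optional stopping in continuous time.
-/

namespace Run7.h713.RG

open MeasureTheory ProbabilityTheory Set Filter Topology
open scoped ENNReal NNReal
open Run7.h800.RG

/-- the grid on `[s, t]` -/
noncomputable def uu (s t : ℝ≥0) (j k : ℕ) : ℝ≥0 :=
  s + (t - s) * ((min k (2 ^ j) : ℕ) : ℝ≥0) / 2 ^ j

theorem uu_mono (s t : ℝ≥0) (j : ℕ) : Monotone (uu s t j) := by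
  intro a b h
  unfold uu
  have h1 : ((min a (2 ^ j) : ℕ) : ℝ≥0) ≤ ((min b (2 ^ j) : ℕ) : ℝ≥0) := by
    exact_mod_cast min_le_min_right _ h
  gcongr

theorem uu_zero (s t : ℝ≥0) (j : ℕ) : uu s t j 0 = s := by simp [uu]

theorem uu_top {s t : ℝ≥0} (h : s ≤ t) {j k : ℕ} (hk : 2 ^ j ≤ k) : uu s t j k = t := by
  unfold uu
  rw [min_eq_right hk]
  push_cast
  rw [mul_div_assoc, div_self (by positivity), mul_one, add_tsub_cancel_of_le h]

theorem uu_le {s t : ℝ≥0} (h : s ≤ t) (j k : ℕ) : uu s t j k ≤ t := by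
  have h1 := uu_mono s t j (le_max_left k (2 ^ j))
  rwa [uu_top h (le_max_right k (2 ^ j))] at h1

theorem uu_succ (s t : ℝ≥0) (j k : ℕ) : uu s t j (k + 1) ≤ uu s t j k + (t - s) / 2 ^ j := by
  unfold uu
  have h1 : ((min (k + 1) (2 ^ j) : ℕ) : ℝ≥0) ≤ ((min k (2 ^ j) : ℕ) : ℝ≥0) + 1 := by
    have : min (k + 1) (2 ^ j) ≤ min k (2 ^ j) + 1 := by omega
    exact_mod_cast this
  calc s + (t - s) * ((min (k + 1) (2 ^ j) : ℕ) : ℝ≥0) / 2 ^ j
      ≤ s + (t - s) * (((min k (2 ^ j) : ℕ) : ℝ≥0) + 1) / 2 ^ j := by gcongr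
    _ = s + (t - s) * ((min k (2 ^ j) : ℕ) : ℝ≥0) / 2 ^ j + (t - s) / 2 ^ j := by
        rw [mul_add, mul_one, add_div, add_assoc]

/-- the index of the first grid point after `τ` -/
noncomputable def kk (s t : ℝ≥0) (τ : ℝ≥0∞) (j : ℕ) : ℕ :=
  sInf {k | 2 ^ j ≤ k ∨ τ ≤ (uu s t j k : ℝ≥0∞)}

theorem kk_le_iff (s t : ℝ≥0) (τ : ℝ≥0∞) (j k : ℕ) :
    kk s t τ j ≤ k ↔ 2 ^ j ≤ k ∨ τ ≤ (uu s t j k : ℝ≥0∞) := by
  constructor
  · intro h
    have h1 : kk s t τ j ∈ {k | 2 ^ j ≤ k ∨ τ ≤ (uu s t j k : ℝ≥0∞)} :=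
      Nat.sInf_mem ⟨2 ^ j, Or.inl le_rfl⟩
    rcases h1 with h1 | h1
    · exact Or.inl (h1.trans h)
    · refine Or.inr (h1.trans ?_)
      exact_mod_cast uu_mono s t j h
  · intro h
    exact Nat.sInf_le h

theorem kk_le (s t : ℝ≥0) (τ : ℝ≥0∞) (j : ℕ) : kk s t τ j ≤ 2 ^ j :=
  (kk_le_iff s t τ j _).2 (Or.inl le_rfl)

theorem coe_r (t : ℝ≥0) (τ : ℝ≥0∞) : (((min (t : ℝ≥0∞) τ).toNNReal : ℝ≥0) : ℝ≥0∞) = min (t : ℝ≥0∞) τ :=
  ENNReal.coe_toNNReal (ne_top_of_le_ne_top ENNReal.coe_ne_top (min_le_left _ _))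

theorem r_le (t : ℝ≥0) (τ : ℝ≥0∞) : (min (t : ℝ≥0∞) τ).toNNReal ≤ t := by
  rw [← ENNReal.coe_le_coe, coe_r]
  exact min_le_left _ _

theorem kk_lower {s t : ℝ≥0} (h : s ≤ t) (τ : ℝ≥0∞) (j : ℕ) :
    max s (min (t : ℝ≥0∞) τ).toNNReal ≤ uu s t j (kk s t τ j) := by
  refine max_le ?_ ?_
  · have := uu_mono s t j (Nat.zero_le (kk s t τ j))
    rwa [uu_zero] at this
  · rcases (kk_le_iff s t τ j _).1 le_rfl with h1 | h1
    · rw [uu_top h h1]
      exact r_le t τ
    · rw [← ENNReal.coe_le_coe, coe_r]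
      exact (min_le_right _ _).trans h1

theorem kk_upper {s t : ℝ≥0} (h : s ≤ t) (τ : ℝ≥0∞) (j : ℕ) :
    uu s t j (kk s t τ j) ≤ max s (min (t : ℝ≥0∞) τ).toNNReal + (t - s) / 2 ^ j := by
  rcases Nat.eq_zero_or_pos (kk s t τ j) with h0 | h0
  · rw [h0, uu_zero]
    exact (le_max_left _ _).trans (le_add_of_nonneg_right zero_le)
  · obtain ⟨k, hk⟩ : ∃ k, kk s t τ j = k + 1 := ⟨kk s t τ j - 1, by omega⟩
    have h1 : ¬ (2 ^ j ≤ k ∨ τ ≤ (uu s t j k : ℝ≥0∞)) := by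
      rw [← kk_le_iff]; omega
    push Not at h1
    have h2 : uu s t j k ≤ (min (t : ℝ≥0∞) τ).toNNReal := by
      rw [← ENNReal.coe_le_coe, coe_r]
      exact le_min (by exact_mod_cast uu_le h j k) h1.2.le
    rw [hk]
    calc uu s t j (k + 1) ≤ uu s t j k + (t - s) / 2 ^ j := uu_succ _ _ _ _
      _ ≤ _ := by
        gcongr
        exact h2.trans (le_max_right _ _)

theorem kk_lim {s t : ℝ≥0} (h : s ≤ t) (τ : ℝ≥0∞) :
    Tendsto (fun j => uu s t j (kk s t τ j)) atTop (𝓝 (max s (min (t : ℝ≥0∞) τ).toNNReal)) := by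
  have h1 : Tendsto (fun j : ℕ => max s (min (t : ℝ≥0∞) τ).toNNReal + (t - s) / 2 ^ j) atTop
      (𝓝 (max s (min (t : ℝ≥0∞) τ).toNNReal + 0)) := by
    refine tendsto_const_nhds.add ?_
    have h2 : Tendsto (fun j : ℕ => (t - s) * (2⁻¹ : ℝ≥0) ^ j) atTop (𝓝 ((t - s) * 0)) :=
      (NNReal.tendsto_pow_atTop_nhds_zero_of_lt_one (by
        rw [← NNReal.coe_lt_coe]; push_cast; norm_num)).const_mul _
    rw [mul_zero] at h2
    refine h2.congr fun j => ?_
    rw [div_eq_mul_inv, inv_pow]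
  rw [add_zero] at h1
  exact tendsto_of_tendsto_of_tendsto_of_le_of_le tendsto_const_nhds h1
    (fun j => kk_lower h τ j) (fun j => kk_upper h τ j)

section

variable {Ω : Type} {m : MeasurableSpace Ω} {P : Measure Ω} {F : Filtration ℝ≥0 m}

theorem kk_meas {τ : Ω → ℝ≥0∞} (hτ : ∀ t : ℝ≥0, MeasurableSet[F t] {ω | τ ω ≤ t}) (s t : ℝ≥0)
    (j k : ℕ) : MeasurableSet[F (uu s t j k)] {ω | kk s t (τ ω) j ≤ k} := by
  have h1 : {ω | kk s t (τ ω) j ≤ k} = {ω | 2 ^ j ≤ k ∨ τ ω ≤ (uu s t j k : ℝ≥0∞)} := by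
    ext ω; exact kk_le_iff s t (τ ω) j k
  rw [h1]
  by_cases hk : 2 ^ j ≤ k
  · simp [hk]
  · simp only [hk, false_or]
    exact hτ _

theorem mble_of_ae (hN : ∀ s : Set Ω, P s = 0 → MeasurableSet[F 0] s) (t : ℝ≥0) {f g : Ω → ℝ}
    (hg : Measurable[F t] g) (h : f =ᵐ[P] g) : Measurable[F t] f := by
  intro B hB
  have h1 : f ⁻¹' B = (g ⁻¹' B ∩ {ω | f ω ≠ g ω}ᶜ) ∪ (f ⁻¹' B ∩ {ω | f ω ≠ g ω}) := by
    ext ω
    simp only [mem_preimage, mem_union, mem_inter_iff, mem_compl_iff, mem_ofPred_eq, not_not]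
    constructor
    · intro h2
      by_cases h3 : f ω = g ω
      · exact Or.inl ⟨h3 ▸ h2, h3⟩
      · exact Or.inr ⟨h2, h3⟩
    · rintro (⟨h2, h3⟩ | ⟨h2, _⟩)
      · rw [h3]; exact h2
      · exact h2
  have h0 : P {ω | f ω ≠ g ω} = 0 := h
  have hmono : ∀ s : Set Ω, P s = 0 → MeasurableSet[F t] s := fun s hs =>
    F.mono zero_le s (hN s hs)
  rw [h1]
  refine MeasurableSet.union (MeasurableSet.inter (hg hB) (hmono _ h0).compl) ?_
  exact hmono _ (measure_mono_null inter_subset_right h0)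

end

theorem meas_limsup {Ω : Type} [MeasurableSpace Ω] (f : ℕ → Ω → ℝ) (hf : ∀ j, Measurable (f j)) :
    Measurable (fun ω => limsup (fun j => f j ω) atTop) := Measurable.limsup hf

theorem t_OST : S_UIL → S_VIT → S_OST := by
  intro hUIL hVIT Ω m P hP F hN X hX hcont τ hτ
  -- the basic computation
  have key : ∀ s t : ℝ≥0, s ≤ t →
      Integrable (fun ω => X (max s (min (t : ℝ≥0∞) (τ ω)).toNNReal) ω) P ∧
      (∀ E : Set Ω, MeasurableSet[F s] E →
        ∫ ω in E, X (max s (min (t : ℝ≥0∞) (τ ω)).toNNReal) ω ∂P = ∫ ω in E, X s ω ∂P) ∧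
      ∀ᵐ ω ∂P, Tendsto (fun j => X (uu s t j (kk s t (τ ω) j)) ω) atTop
        (𝓝 (X (max s (min (t : ℝ≥0∞) (τ ω)).toNNReal) ω)) := by
    intro s t hst
    have hlim : ∀ᵐ ω ∂P, Tendsto (fun j => X (uu s t j (kk s t (τ ω) j)) ω) atTop
        (𝓝 (X (max s (min (t : ℝ≥0∞) (τ ω)).toNNReal) ω)) := by
      filter_upwards [hcont] with ω hω
      exact (hω.tendsto _).comp (kk_lim hst (τ ω))
    have hU := fun j => hUIL Ω m P hP F X hX (2 ^ j) (uu s t j) (uu_mono s t j)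
      (fun ω => kk s t (τ ω) j) (fun ω => kk_le s t (τ ω) j) (fun k => kk_meas hτ s t j k)
    have hV := hVIT Ω m P hP (fun j ω => X (uu s t j (kk s t (τ ω) j)) ω)
      (fun ω => X (max s (min (t : ℝ≥0∞) (τ ω)).toNNReal) ω) (X t) (fun j => (hU j).1)
      (hX.integrable t) (fun j C => by
        have h1 := (hU j).2.2 C
        rwa [uu_top hst le_rfl] at h1) hlim
    refine ⟨hV.1, fun E hE => ?_, hlim⟩
    have hEm : MeasurableSet E := F.le s E hE
    have h1 : ∀ j, ∫ ω in E, X (uu s t j (kk s t (τ ω) j)) ω ∂P = ∫ ω in E, X s ω ∂P := by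
      intro j
      have h2 := (hU j).2.1 E (by rw [uu_zero]; exact hE)
      rw [uu_zero] at h2
      exact h2
    have h3 : Tendsto (fun j => ∫ ω in E, X (uu s t j (kk s t (τ ω) j)) ω ∂P) atTop
        (𝓝 (∫ ω in E, X (max s (min (t : ℝ≥0∞) (τ ω)).toNNReal) ω ∂P)) := by
      rw [tendsto_iff_norm_sub_tendsto_zero]
      refine squeeze_zero (fun j => norm_nonneg _) (fun j => ?_) hV.2
      rw [← integral_sub (hU j).1.integrableOn hV.1.integrableOn]
      refine (norm_integral_le_integral_norm _).trans ?_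
      exact setIntegral_le_integral ((hU j).1.sub hV.1).norm (Eventually.of_forall fun ω => norm_nonneg _)
    have h4 := tendsto_nhds_unique h3 (tendsto_const_nhds.congr fun j => (h1 j).symm)
    exact h4
  -- the stopped process
  have hst0 : ∀ t : ℝ≥0, (fun ω => X (max 0 (min (t : ℝ≥0∞) (τ ω)).toNNReal) ω) = stopped X τ t := by
    intro t
    funext ω
    unfold stopped
    rw [max_eq_right zero_le]
  have hint : ∀ t : ℝ≥0, Integrable (stopped X τ t) P := by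
    intro t
    have := (key 0 t zero_le).1
    rwa [hst0 t] at this
  have hmeas : ∀ t : ℝ≥0, Measurable[F t] (stopped X τ t) := by
    intro t
    have hlim := (key 0 t zero_le).2.2
    have hZ : ∀ j, Measurable[F t] (fun ω => X (uu 0 t j (kk 0 t (τ ω) j)) ω) := by
      intro j
      have hk : Measurable[F t] (fun ω => kk 0 t (τ ω) j) := by
        refine @measurable_of_Iic ℕ Ω _ _ _ (F t) _ _ _ _ (fun k => ?_)
        exact F.mono (uu_le zero_le j k) _ (kk_meas hτ 0 t j k)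
      have h1 : (fun ω => X (uu 0 t j (kk 0 t (τ ω) j)) ω) =
          fun ω => ∑ k ∈ Finset.range (2 ^ j + 1),
            {ω | kk 0 t (τ ω) j = k}.indicator (X (uu 0 t j k)) ω := by
        funext ω
        rw [Finset.sum_eq_single (kk 0 t (τ ω) j)]
        · rw [indicator_of_mem (by simp)]
        · intro b _ hb
          rw [indicator_of_notMem]
          simpa using fun h => hb h.symm
        · intro h
          exfalso
          apply h
          rw [Finset.mem_range]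
          have := kk_le 0 t (τ ω) j
          omega
      rw [h1]
      refine Finset.measurable_sum _ fun k _ => ?_
      refine Measurable.indicator ?_ (hk (measurableSet_singleton k))
      exact ((hX.1 (uu 0 t j k)).measurable).mono (F.mono (uu_le zero_le j k)) le_rfl
    -- the limit
    classical
    obtain ⟨g, hg⟩ : ∃ g : Ω → ℝ, g = fun ω =>
      limsup (fun j => X (uu 0 t j (kk 0 t (τ ω) j)) ω) atTop := ⟨_, rfl⟩
    have hgm : Measurable[F t] g := by
      rw [hg]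
      exact @meas_limsup Ω (F t) _ hZ
    refine mble_of_ae hN t hgm ?_
    filter_upwards [hlim] with ω hω
    rw [hg]
    have h2 := congrFun (hst0 t) ω
    rw [← h2]
    exact hω.limsup_eq.symm
  refine ⟨fun t => (hmeas t).stronglyMeasurable, fun s t hst => ?_⟩
  refine (ae_eq_condExp_of_forall_setIntegral_eq (F.le s) (hint t)
    (fun E _ _ => (hint s).integrableOn) (fun E hE _ => ?_)
    (hmeas s).stronglyMeasurable.aestronglyMeasurable).symm
  have hEm : MeasurableSet E := F.le s E hE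
  have hτm : MeasurableSet[F s] {ω | τ ω ≤ s} := hτ s
  have hτm' : MeasurableSet {ω | τ ω ≤ s} := F.le s _ hτm
  rw [← integral_inter_add_sdiff hτm' (hint s).integrableOn,
    ← integral_inter_add_sdiff hτm' (hint t).integrableOn]
  congr 1
  · refine setIntegral_congr_fun (hEm.inter hτm') fun ω hω => ?_
    have h1 : τ ω ≤ s := hω.2
    have h2 : τ ω ≤ t := h1.trans (by exact_mod_cast hst)
    simp only [stopped, min_eq_right h1, min_eq_right h2]
  · have hD : MeasurableSet[F s] (E \ {ω | τ ω ≤ s}) := MeasurableSet.diff hE hτm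
    have h1 := (key s t hst).2.1 _ hD
    have h2 : ∫ ω in E \ {ω | τ ω ≤ s}, stopped X τ t ω ∂P =
        ∫ ω in E \ {ω | τ ω ≤ s}, X (max s (min (t : ℝ≥0∞) (τ ω)).toNNReal) ω ∂P := by
      refine setIntegral_congr_fun (hEm.diff hτm') fun ω hω => ?_
      have h3 : (s : ℝ≥0∞) < τ ω := not_le.1 hω.2
      have h4 : s ≤ (min (t : ℝ≥0∞) (τ ω)).toNNReal := by
        rw [← ENNReal.coe_le_coe, coe_r]
        exact le_min (by exact_mod_cast hst) h3.le
      simp only [stopped, max_eq_right h4]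
    have h5 : ∫ ω in E \ {ω | τ ω ≤ s}, stopped X τ s ω ∂P =
        ∫ ω in E \ {ω | τ ω ≤ s}, X s ω ∂P := by
      refine setIntegral_congr_fun (hEm.diff hτm') fun ω hω => ?_
      have h3 : (s : ℝ≥0∞) < τ ω := not_le.1 hω.2
      simp only [stopped, min_eq_left h3.le, ENNReal.toNNReal_coe]
    rw [h2, h1, h5]

end Run7.h713.RG
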