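import Pool.Agent.Run7.h800.RG.Stm2

set_option autoImplicit false

/-!
Piece UNI of helper800's project RG (`MP_e3daee_pr`): uniqueness of the decomposition.
-/

namespace Run7.h713.RG

open MeasureTheory ProbabilityTheory Set Filter Topology
open scoped ENNReal NNReal
open Run7.h800.RG

/-- the time `min t τ` -/
noncomputable def rr (τ : ℝ≥0∞) (t : ℝ≥0) : ℝ≥0 := (min (t : ℝ≥0∞) τ).toNNReal

theorem rr_top : rr ∞ = fun t => t := by
  funext t
  unfold rr
  rw [min_eq_left le_top, ENNReal.toNNReal_coe]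

theorem rr_coe (c : ℝ≥0) : rr c = fun t => min t c := by
  funext t
  unfold rr
  rw [← ENNReal.coe_min, ENNReal.toNNReal_coe]

theorem rr_cont (τ : ℝ≥0∞) : Continuous (rr τ) := by
  induction τ using ENNReal.recTopCoe with
  | top => rw [rr_top]; exact continuous_id
  | coe c => rw [rr_coe]; exact continuous_id.min continuous_const

theorem rr_mono (τ : ℝ≥0∞) : Monotone (rr τ) := by
  induction τ using ENNReal.recTopCoe with
  | top => rw [rr_top]; exact monotone_id
  | coe c => rw [rr_coe]; exact fun a b h => min_le_min_right _ h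

theorem rr_zero (τ : ℝ≥0∞) : rr τ 0 = 0 := by
  unfold rr
  simp

theorem lbv_comp {f : ℝ≥0 → ℝ} (hf : LocallyBoundedVariationOn f univ) {φ : ℝ≥0 → ℝ≥0}
    (hφ : Monotone φ) : LocallyBoundedVariationOn (fun t => f (φ t)) univ := by
  intro a b _ _
  have h1 := hf (φ a) (φ b) trivial trivial
  have h2 : eVariationOn (f ∘ φ) (univ ∩ Icc a b) ≤ eVariationOn f (univ ∩ Icc (φ a) (φ b)) := by
    refine eVariationOn.comp_le_of_monotoneOn f φ (hφ.monotoneOn _) ?_
    rintro x ⟨_, hx1, hx2⟩
    exact ⟨trivial, hφ hx1, hφ hx2⟩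
  exact ne_top_of_le_ne_top h1 h2

theorem t_UNI : S_OST → S_ZER → S_UNI := by
  intro hOST hZER Ω m P hP F hN L N hL hNm hNc h0 hbv
  obtain ⟨τ, hτm, _, hτlim, hτmart⟩ := hL.loc
  have hY : ∀ n, ∀ᵐ ω ∂P, ∀ t,
      (stopped L (τ n) t ω - L 0 ω) - (stopped N (τ n) t ω - N 0 ω) = 0 := by
    intro n
    have h1 := hOST Ω m P hP F hN N hNm hNc (τ n) (hτm n)
    have h2 : Martingale (fun (_ : ℝ≥0) ω => N 0 ω) F P :=
      martingale_const_fun F P (by simpa using hNm.1 0) (hNm.integrable 0)
    have h3 : Martingale (fun t ω => (stopped L (τ n) t ω - L 0 ω) - (stopped N (τ n) t ω - N 0 ω)) F P :=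
      (hτmart n).sub (h1.sub h2)
    refine hZER Ω m P hP F _ h3 ?_ ?_ ?_
    · refine Eventually.of_forall fun ω => ?_
      have e1 : ∀ X : ℝ≥0 → Ω → ℝ, stopped X (τ n) 0 ω = X 0 ω := by
        intro X
        unfold stopped
        simp
      rw [e1, e1]
      ring
    · filter_upwards [hL.cont, hNc] with ω h4 h5
      have e1 : Continuous fun t => L (rr (τ n ω) t) ω := h4.comp (rr_cont _)
      have e2 : Continuous fun t => N (rr (τ n ω) t) ω := h5.comp (rr_cont _)
      exact (e1.sub continuous_const).sub (e2.sub continuous_const)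
    · filter_upwards [h0, hbv] with ω h4 h5
      have e1 := lbv_comp h5 (rr_mono (τ n ω))
      have e2 : (fun t => (stopped L (τ n) t ω - L 0 ω) - (stopped N (τ n) t ω - N 0 ω)) =
          fun t => L (rr (τ n ω) t) ω - N (rr (τ n ω) t) ω := by
        funext t
        unfold stopped rr
        rw [h4]
        ring
      rw [e2]
      exact e1
  filter_upwards [ae_all_iff.2 hY, hτlim, h0] with ω h1 h2 h3 t
  have h4 : ∀ᶠ n in atTop, (t : ℝ≥0∞) < τ n ω :=
    (tendsto_order.1 h2).1 _ ENNReal.coe_lt_top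
  obtain ⟨n, hn⟩ := h4.exists
  have h5 := h1 n t
  have e1 : ∀ X : ℝ≥0 → Ω → ℝ, stopped X (τ n) t ω = X t ω := by
    intro X
    unfold stopped
    rw [min_eq_left hn.le, ENNReal.toNNReal_coe]
  rw [e1, e1, h3] at h5
  linarith

end Run7.h713.RG
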